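import Pool.Agent.P.MP_dcd5d0_pr.HD.Fin

/-!
First-passage percolation on `ℤ^d`, `d ≥ 2`, with an atomless edge law with a finite second
moment: the limit shape has infinitely many extreme points, so it is not a polytope.
-/

set_option autoImplicit false

namespace Pool.Agent.Results.MP_dcd5d0_pr.NotPolytope

open Pool.Agent.P.MP_dcd5d0_pr

/-- The limit shape `{g ≤ 1}` of first-passage percolation on `ℤ^d` is not a polytope. -/
theorem result :
  ∀ (d : ℕ), 2 ≤ d →
  ∀ (Ω : Type) [MeasurableSpace Ω] (P : MeasureTheory.Measure Ω) [MeasureTheory.IsProbabilityMeasure P],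
  ∀ (ν : MeasureTheory.Measure ℝ), (∀ a : ℝ, ν {a} = 0) → ν (Set.Iio 0) = 0 →
  MeasureTheory.Integrable (fun y : ℝ => y ^ 2) ν →
  ∀ (w : (Fin d → ℤ) × Fin d → Ω → ℝ),
    (∀ e, Measurable (w e)) → (∀ e, MeasureTheory.Measure.map (w e) P = ν) →
    ProbabilityTheory.iIndepFun w P →
  ∀ (g : (Fin d → ℝ) → ℝ),
    (∀ x : Fin d → ℝ, ∀ ε : ℝ, 0 < ε →
      Filter.Tendsto (fun n : ℕ => P {ω | ε < |sInf {s : ℝ | ∃ (k : ℕ) (p : ℕ → Fin d → ℤ),
          p 0 = 0 ∧ p k = (fun i => round ((n : ℝ) * x i)) ∧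
          (∀ j < k, ∃ i : Fin d, p (j+1) = p j + Pi.single i 1 ∨ p j = p (j+1) + Pi.single i 1) ∧
          s = ∑ j ∈ Finset.range k, ∑ i : Fin d,
            ((if p (j+1) = p j + Pi.single i 1 then w (p j, i) ω else 0) +
             (if p j = p (j+1) + Pi.single i 1 then w (p (j+1), i) ω else 0))} / (n : ℝ) - g x|})
        Filter.atTop (nhds 0)) →
    (Set.extremePoints ℝ {x : Fin d → ℝ | g x ≤ 1}).Infinite := by
  intro d hd Ω _ P _ ν h0 h1 h2 w hm hl hi g hg
  have : NeZero d := ⟨by omega⟩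
  have : MeasureTheory.IsProbabilityMeasure ν :=
    hl (0, 0) ▸ MeasureTheory.Measure.isProbabilityMeasure_map (hm (0, 0)).aemeasurable
  exact HD.not_polytope hd h2 h0 h1 (HD.isTC_of P h1 w hm hl hi hg)

end Pool.Agent.Results.MP_dcd5d0_pr.NotPolytope
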