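import Pool.Agent.P.MP_dcd5d0_pr.S2.Fin

/-!
Planar first-passage percolation with an atomless edge law, no moment assumption: the limit
shape is strictly convex. This is the frozen statement with `d = 2`.
-/

set_option autoImplicit false

namespace Pool.Agent.Results.MP_dcd5d0_pr.StrictConvexPlanar

open Pool.Agent.P.MP_dcd5d0_pr

/-- The limit shape `{g ≤ 1}` of first-passage percolation on `ℤ²` is strictly convex. -/
theorem result :
  ∀ (Ω : Type) [MeasurableSpace Ω] (P : MeasureTheory.Measure Ω) [MeasureTheory.IsProbabilityMeasure P],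
  ∀ (ν : MeasureTheory.Measure ℝ), (∀ a : ℝ, ν {a} = 0) → ν (Set.Iio 0) = 0 →
  ∀ (w : (Fin 2 → ℤ) × Fin 2 → Ω → ℝ),
    (∀ e, Measurable (w e)) → (∀ e, MeasureTheory.Measure.map (w e) P = ν) →
    ProbabilityTheory.iIndepFun w P →
  ∀ (g : (Fin 2 → ℝ) → ℝ),
    (∀ x : Fin 2 → ℝ, ∀ ε : ℝ, 0 < ε →
      Filter.Tendsto (fun n : ℕ => P {ω | ε < |sInf {s : ℝ | ∃ (k : ℕ) (p : ℕ → Fin 2 → ℤ),
          p 0 = 0 ∧ p k = (fun i => round ((n : ℝ) * x i)) ∧
          (∀ j < k, ∃ i : Fin 2, p (j+1) = p j + Pi.single i 1 ∨ p j = p (j+1) + Pi.single i 1) ∧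
          s = ∑ j ∈ Finset.range k, ∑ i : Fin 2,
            ((if p (j+1) = p j + Pi.single i 1 then w (p j, i) ω else 0) +
             (if p j = p (j+1) + Pi.single i 1 then w (p (j+1), i) ω else 0))} / (n : ℝ) - g x|})
        Filter.atTop (nhds 0)) →
    StrictConvex ℝ {x : Fin 2 → ℝ | g x ≤ 1} := by
  intro Ω _ P _ ν h0 h1 w hm hl hi g hg
  have : MeasureTheory.IsProbabilityMeasure ν :=
    hl (0, 0) ▸ MeasureTheory.Measure.isProbabilityMeasure_map (hm (0, 0)).aemeasurable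
  exact S2.strict h0 h1 (isTC_of P h1 w hm hl hi hg)

end Pool.Agent.Results.MP_dcd5d0_pr.StrictConvexPlanar
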